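import Pool.Agent.Helper1.RK.StA

/-!
# Project RK, module CON : a Legendre curve is not rational
-/

set_option autoImplicit false

namespace Pool.Agent.Helper89.RK

open Polynomial Pool.Agent.Helper1.RK

private theorem con_key (h1 : StORD) (h2 : StREG) (h5 : StLD) (L : Type) [Field L] [CharZero L]
    (l : L) (hl0 : l ≠ 0) (hl1 : l ≠ 1) (Dt : Derivation ℤ (RatFunc L) (RatFunc L))
    (hDt : Over (0 : Derivation ℤ L L) 1 Dt) (p : L) (u w : RatFunc L) (hw : leg l u = w * w)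
    (hw0 : w ≠ 0) : Reg p (Dt u * w⁻¹) := by
  obtain ⟨-, omul, oinv, -⟩ := h1 L p
  obtain ⟨-, rreg, -, -, rC, -⟩ := h2 L p
  have hreg1 : Reg p (1 : RatFunc L) := by
    have := (rC 1).1
    rwa [map_one] at this
  have hne : leg l u ≠ 0 := by
    rw [hw]
    exact mul_ne_zero hw0 hw0
  obtain ⟨ha, -⟩ := h5 L p l 0 1 Dt u hl0 hl1 rfl hDt hreg1 hne
  rw [rreg]
  by_cases hD : Dt u = 0
  · left
    rw [hD, zero_mul]
  · right
    have hb := ha.resolve_left hD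
    rw [hw, omul w w hw0 hw0] at hb
    rw [omul _ _ hD (inv_ne_zero hw0), oinv]
    omega

theorem pCON (h1 : StORD) (h2 : StREG) (h3 : StFIN) (h4 : StDER) (h5 : StLD) (h6 : StIOT)
    (h7 : StTRN) : StCON := by
  intro L _ _ _ l u hl0 hl1 hsq hne
  obtain ⟨w, hw⟩ := hsq
  have hw0 : w ≠ 0 := by
    rintro rfl
    exact hne (by rw [hw, mul_zero])
  obtain ⟨dex, -, dform, dker⟩ := h4 L
  obtain ⟨Dt, hDt⟩ := dex 0 1
  obtain ⟨fpol, -, -⟩ := h3 L
  obtain ⟨P, hP⟩ := fpol (Dt u * w⁻¹) fun p => con_key h1 h2 h5 L l hl0 hl1 Dt hDt p u w hw hw0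
  obtain ⟨⟨ι, hι⟩, iot2, -⟩ := h6 L
  obtain ⟨-, iot3, -⟩ := iot2 ι hι
  have hιC : ∀ a : L, ι (RatFunc.C a) = RatFunc.C a := by
    intro a
    have := ι.commutes a
    rwa [RatFunc.algebraMap_eq_C] at this
  have hw' : leg l (ι u) = ι w * ι w := by
    rw [← map_mul, ← hw]
    unfold leg
    simp only [map_mul, map_sub, map_one, hιC]
  have hw0' : ι w ≠ 0 := by
    intro h
    exact hw0 (ι.injective (by rw [h, map_zero]))
  have hreg := con_key h1 h2 h5 L l hl0 hl1 Dt hDt 0 (ι u) (ι w) hw' hw0'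
  -- the derivative of `ι u`
  obtain ⟨-, trn2, trn3⟩ := h7 L 0
  obtain ⟨D', -, hD'⟩ := trn2 ι 1 Dt hDt
  have hD'o := trn3 ι hι 1 Dt D' hDt hD'
  have hD0 : Over (0 : Derivation ℤ L L) 0 (0 : Derivation ℤ (RatFunc L) (RatFunc L)) := by
    refine ⟨fun a => ?_, rfl⟩
    simp
  have hder := dform 0 _ D' 0 Dt hD'o hD0 hDt (ι u)
  rw [hD' u, map_one] at hder
  have hX : (RatFunc.X : RatFunc L) ≠ 0 := RatFunc.X_ne_zero
  have hder2 : ι (Dt u) = - RatFunc.X ^ 2 * Dt (ι u) := by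
    rw [hder]
    simp
  have hkey : Dt (ι u) * (ι w)⁻¹ =
      -((RatFunc.X : RatFunc L)⁻¹ ^ 2 * ι (algebraMap L[X] (RatFunc L) P)) := by
    rw [← hP, map_mul, map_inv₀, hder2]
    field_simp
  rw [hkey] at hreg
  obtain ⟨-, -, -, -, -, -, -, rneg, -⟩ := h2 L 0
  have hreg2 := (rneg _ hreg).1
  rw [neg_neg] at hreg2
  have hP0 := iot3 P hreg2
  rw [hP0, map_zero] at hP
  have hDu : Dt u = 0 := (mul_eq_zero.1 hP).resolve_right (inv_ne_zero hw0)
  exact (dker Dt hDt u).1 hDu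

end Pool.Agent.Helper89.RK
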